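import Mathlib

/-!
A connected `36`-regular graph on `200` vertices whose independent domination number is larger than
its saturation number (the minimum size of a maximal matching).

The graph consists of five copies of `K_{12,12}`, regarded as Boolean variables (the two sides are
the two literals), and of `80` further vertices, the clauses: for each of the ten sets of three
variables and each of the eight choices of signs one clause, which is joined to all the vertices of
the three sides that correspond to its literals.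
-/

namespace Pool.Agent.Results.MP_763dcb_co.NotBounded

open Finset

variable {V : Type}

/-- `S` is an independent dominating set of `G`. -/
def IsIndepDom (G : SimpleGraph V) (S : Set V) : Prop :=
  (∀ u ∈ S, ∀ v ∈ S, ¬ G.Adj u v) ∧ ∀ v, v ∉ S → ∃ u ∈ S, G.Adj v u

/-- The independent domination number `i(G)`. -/
noncomputable def indepDomNumber (G : SimpleGraph V) : ℕ :=
  sInf {k | ∃ S : Set V, IsIndepDom G S ∧ S.ncard = k}

/-- `M` is a matching of `G`: a set of pairwise vertex-disjoint edges. -/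
def IsMatching (G : SimpleGraph V) (M : Set (Sym2 V)) : Prop :=
  M ⊆ G.edgeSet ∧ ∀ e ∈ M, ∀ f ∈ M, e ≠ f → ∀ v, ¬ (v ∈ e ∧ v ∈ f)

/-- `M` is a maximal matching of `G`: no edge can be added. -/
def IsMaximalMatching (G : SimpleGraph V) (M : Set (Sym2 V)) : Prop :=
  IsMatching G M ∧ ∀ e ∈ G.edgeSet, e ∉ M → ¬ IsMatching G (insert e M)

/-- The saturation number `μ*(G)`: the minimum number of edges of a maximal matching. -/
noncomputable def saturationNumber (G : SimpleGraph V) : ℕ :=
  sInf {k | ∃ M : Set (Sym2 V), IsMaximalMatching G M ∧ M.ncard = k}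

/-! ### the graph -/

/-- the clauses: three literals of different variables -/
abbrev Clause : Type :=
  {g : Fin 5 → Option Bool // (univ.filter fun v => (g v).isSome = true).card = 3}

/-- the vertices -/
abbrev Vt : Type := (Fin 5 × Bool × Fin 12) ⊕ Clause

/-- adjacency -/
def adj : Vt → Vt → Prop
  | Sum.inl (v, b, _), Sum.inl (w, c, _) => v = w ∧ b ≠ c
  | Sum.inl (v, b, _), Sum.inr g => g.1 v = some b
  | Sum.inr g, Sum.inl (v, b, _) => g.1 v = some b
  | Sum.inr _, Sum.inr _ => False

/-- the graph -/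
def G : SimpleGraph Vt where
  Adj := adj
  symm := ⟨by
    rintro (⟨v, b, i⟩ | g) (⟨w, c, j⟩ | h) hadj
    · exact ⟨hadj.1.symm, hadj.2.symm⟩
    · exact hadj
    · exact hadj
    · exact hadj⟩
  loopless := ⟨by
    rintro (⟨v, b, i⟩ | g) hadj
    · exact hadj.2 rfl
    · exact hadj⟩

instance : DecidableRel adj := by
  rintro (⟨v, b, i⟩ | g) (⟨w, c, j⟩ | h)
  · exact inferInstanceAs (Decidable (v = w ∧ b ≠ c))
  · exact inferInstanceAs (Decidable (h.1 v = some b))
  · exact inferInstanceAs (Decidable (g.1 w = some c))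
  · exact inferInstanceAs (Decidable False)

theorem degree_aux : ∀ x : Vt, (univ.filter fun y : Vt => adj x y).card = 36 := by
  decide +kernel

theorem count_bound : ∀ h : Fin 5 → Option Bool,
    61 ≤ (univ.filter fun p : Fin 5 × Bool × Fin 12 => h p.1 = some p.2.1).card +
      (univ.filter fun g : Clause => ∀ v b, h v = some b → g.1 v ≠ some b).card := by
  decide +kernel

/-! ### the graph is connected and regular -/

theorem adj_inl {v w : Fin 5} {b c : Bool} {i j : Fin 12} :
    G.Adj (Sum.inl (v, b, i)) (Sum.inl (w, c, j)) ↔ v = w ∧ b ≠ c := Iff.rfl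

theorem adj_inr {v : Fin 5} {b : Bool} {i : Fin 12} {g : Clause} :
    G.Adj (Sum.inl (v, b, i)) (Sum.inr g) ↔ g.1 v = some b := Iff.rfl

theorem adj_inr' {v : Fin 5} {b : Bool} {i : Fin 12} {g : Clause} :
    G.Adj (Sum.inr g) (Sum.inl (v, b, i)) ↔ g.1 v = some b := Iff.rfl

theorem regular (x : Vt) : {y | G.Adj x y}.ncard = 36 := by
  rw [← degree_aux x, ← Set.ncard_coe_finset]
  congr 1
  ext y
  simp only [Set.mem_ofPred_eq, coe_filter, mem_univ, true_and]
  exact Iff.rfl

theorem exists_clause : ∀ v w : Fin 5, ∀ b c : Bool, v ≠ w →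
    ∃ g : Clause, g.1 v = some b ∧ g.1 w = some c := by
  decide +kernel

theorem exists_other : ∀ v w : Fin 5, ∃ u : Fin 5, v ≠ u ∧ u ≠ w := by
  decide +kernel

theorem exists_literal : ∀ g : Clause, ∃ (v : Fin 5) (b : Bool), g.1 v = some b := by
  decide +kernel

theorem reachable_ne {v w : Fin 5} (b c : Bool) (i j : Fin 12) (h : v ≠ w) :
    G.Reachable (Sum.inl (v, b, i)) (Sum.inl (w, c, j)) := by
  obtain ⟨g, h1, h2⟩ := exists_clause v w b c h
  exact (SimpleGraph.Adj.reachable (adj_inr.mpr h1)).trans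
    (SimpleGraph.Adj.reachable (adj_inr'.mpr h2))

theorem reachable_inl (v w : Fin 5) (b c : Bool) (i j : Fin 12) :
    G.Reachable (Sum.inl (v, b, i)) (Sum.inl (w, c, j)) := by
  obtain ⟨u, h1, h2⟩ := exists_other v w
  exact (reachable_ne b true i 0 h1).trans (reachable_ne true c 0 j h2)

theorem reachable_base (x : Vt) : G.Reachable x (Sum.inl (0, true, 0)) := by
  rcases x with ⟨v, b, i⟩ | g
  · exact reachable_inl v 0 b true i 0
  · obtain ⟨v, b, h⟩ := exists_literal g
    exact (SimpleGraph.Adj.reachable (adj_inr' (i := 0).mpr h)).trans (reachable_inl v 0 b true 0 0)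

theorem connected : G.Connected := by
  have : Nonempty Vt := ⟨Sum.inl (0, true, 0)⟩
  refine SimpleGraph.Connected.mk ?_
  intro x y
  exact (reachable_base x).trans (reachable_base y).symm

/-! ### a small maximal matching -/

/-- the matching between the two sides of every copy of `K_{12,12}` -/
def medge (p : Fin 5 × Fin 12) : Sym2 Vt := s(Sum.inl (p.1, true, p.2), Sum.inl (p.1, false, p.2))

theorem mem_medge {p : Fin 5 × Fin 12} {x : Vt} :
    x ∈ medge p ↔ ∃ b, x = Sum.inl (p.1, b, p.2) := by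
  rw [medge, Sym2.mem_iff]
  constructor
  · rintro (h | h)
    · exact ⟨true, h⟩
    · exact ⟨false, h⟩
  · rintro ⟨b, h⟩
    rcases b with _ | _
    · exact Or.inr h
    · exact Or.inl h

theorem matching_range : IsMatching G (Set.range medge) := by
  constructor
  · rintro _ ⟨p, rfl⟩
    rw [medge, SimpleGraph.mem_edgeSet, adj_inl]
    exact ⟨rfl, by decide⟩
  · rintro _ ⟨p, rfl⟩ _ ⟨q, rfl⟩ hne x ⟨h1, h2⟩
    rw [mem_medge] at h1 h2
    obtain ⟨b, rfl⟩ := h1
    obtain ⟨c, h⟩ := h2
    have h3 : (p.1, b, p.2) = (q.1, c, q.2) := Sum.inl_injective h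
    simp only [Prod.mk.injEq] at h3
    exact hne (by rw [Prod.ext h3.1 h3.2.2])

theorem maximal_range : IsMaximalMatching G (Set.range medge) := by
  refine ⟨matching_range, ?_⟩
  intro e he hn hm
  have key : ∀ (v : Fin 5) (b : Bool) (i : Fin 12), Sum.inl (v, b, i) ∉ e := by
    intro v b i hmem
    refine hm.2 e (Set.mem_insert _ _) (medge (v, i)) (Set.mem_insert_of_mem _ ⟨_, rfl⟩) ?_ _
      ⟨hmem, mem_medge.mpr ⟨b, rfl⟩⟩
    rintro rfl
    exact hn ⟨_, rfl⟩
  induction e using Sym2.ind with
  | _ x y =>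
    rw [SimpleGraph.mem_edgeSet] at he
    rcases x with ⟨v, b, i⟩ | g
    · exact key v b i (Sym2.mem_mk_left _ _)
    · rcases y with ⟨v, b, i⟩ | h
      · exact key v b i (Sym2.mem_mk_right _ _)
      · exact he

theorem saturation_le : saturationNumber G ≤ 60 := by
  have h1 : saturationNumber G ≤ (Set.range medge).ncard :=
    Nat.sInf_le ⟨_, maximal_range, rfl⟩
  have h2 : (Set.range medge).ncard ≤ (Set.univ : Set (Fin 5 × Fin 12)).ncard := by
    rw [← Set.image_univ]
    exact Set.ncard_image_le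
  have h3 : (Set.univ : Set (Fin 5 × Fin 12)).ncard = 60 := by
    rw [Set.ncard_univ, Nat.card_eq_fintype_card]
    rfl
  omega

/-! ### independent dominating sets -/

theorem twins {S : Set Vt} (hS : IsIndepDom G S) {v : Fin 5} {b : Bool} {i : Fin 12}
    (h : Sum.inl (v, b, i) ∈ S) (j : Fin 12) : Sum.inl (v, b, j) ∈ S := by
  by_contra hn
  obtain ⟨u, hu, ha⟩ := hS.2 _ hn
  refine hS.1 _ h u hu ?_
  rcases u with ⟨w, c, k⟩ | g
  · exact ha
  · exact ha

open Classical in
/-- the side of the `v`-th copy that is contained in `S` -/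
noncomputable def side (S : Set Vt) (v : Fin 5) : Option Bool :=
  if Sum.inl (v, true, 0) ∈ S then some true
  else if Sum.inl (v, false, 0) ∈ S then some false else none

theorem mem_iff_side {S : Set Vt} (hS : IsIndepDom G S) (v : Fin 5) (b : Bool) (i : Fin 12) :
    Sum.inl (v, b, i) ∈ S ↔ side S v = some b := by
  have h0 : Sum.inl (v, b, i) ∈ S ↔ Sum.inl (v, b, 0) ∈ S :=
    ⟨fun h => twins hS h 0, fun h => twins hS h i⟩
  have h1 : ¬ (Sum.inl (v, true, 0) ∈ S ∧ Sum.inl (v, false, 0) ∈ S) := by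
    rintro ⟨h1, h2⟩
    exact hS.1 _ h1 _ h2 (adj_inl.mpr ⟨rfl, by decide⟩)
  rw [h0, side]
  by_cases ht : Sum.inl (v, true, 0) ∈ S
  · have hf : Sum.inl (v, false, 0) ∉ S := fun h => h1 ⟨ht, h⟩
    rw [if_pos ht]
    rcases b with _ | _
    · simp [hf]
    · simp [ht]
  · rw [if_neg ht]
    by_cases hf : Sum.inl (v, false, 0) ∈ S
    · rw [if_pos hf]
      rcases b with _ | _
      · simp [hf]
      · simp [ht]
    · rw [if_neg hf]
      rcases b with _ | _
      · simp [hf]
      · simp [ht]

theorem mem_inr_iff {S : Set Vt} (hS : IsIndepDom G S) (g : Clause) :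
    Sum.inr g ∈ S ↔ ∀ v b, side S v = some b → g.1 v ≠ some b := by
  constructor
  · intro h v b hv hg
    exact hS.1 _ ((mem_iff_side hS v b 0).mpr hv) _ h (adj_inr.mpr hg)
  · intro h
    by_contra hn
    obtain ⟨u, hu, ha⟩ := hS.2 _ hn
    rcases u with ⟨v, b, i⟩ | g'
    · exact h v b ((mem_iff_side hS v b i).mp hu) ha
    · exact ha

theorem ncard_ge {S : Set Vt} (hS : IsIndepDom G S) : 61 ≤ S.ncard := by
  have h1 : S = (((univ.filter fun p : Fin 5 × Bool × Fin 12 => side S p.1 = some p.2.1).disjSum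
      (univ.filter fun g : Clause => ∀ v b, side S v = some b → g.1 v ≠ some b) : Finset Vt) :
        Set Vt) := by
    ext x
    rcases x with ⟨v, b, i⟩ | g
    · rw [mem_iff_side hS, mem_coe, inl_mem_disjSum]
      simp
    · rw [mem_inr_iff hS, mem_coe, inr_mem_disjSum]
      simp
  rw [h1, Set.ncard_coe_finset, card_disjSum]
  exact count_bound (side S)

theorem indepDom_clauses : IsIndepDom G (Set.range Sum.inr) := by
  constructor
  · rintro _ ⟨g, rfl⟩ _ ⟨h, rfl⟩ ha
    exact ha
  · rintro (⟨v, b, i⟩ | g) hn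
    · obtain ⟨u, hu, -⟩ := exists_other v v
      obtain ⟨g, hg, -⟩ := exists_clause v u b true hu
      exact ⟨_, ⟨g, rfl⟩, adj_inr.mpr hg⟩
    · exact absurd ⟨g, rfl⟩ hn

theorem indepDom_ge : 61 ≤ indepDomNumber G := by
  refine le_csInf ⟨_, _, indepDom_clauses, rfl⟩ ?_
  rintro k ⟨S, hS, rfl⟩
  exact ncard_ge hS

/-- There is a connected regular graph with `μ*(G) < i(G)`. -/
theorem result : ∃ (V : Type) (_ : Finite V) (G : SimpleGraph V) (r : ℕ), 1 ≤ r ∧ G.Connected ∧
    (∀ x, {y | G.Adj x y}.ncard = r) ∧ saturationNumber G < indepDomNumber G :=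
  ⟨Vt, inferInstance, G, 36, by norm_num, connected, regular,
    lt_of_le_of_lt saturation_le (lt_of_lt_of_le (by norm_num) indepDom_ge)⟩

end Pool.Agent.Results.MP_763dcb_co.NotBounded
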